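import Pool.Agent.H799Z.HKTorus

set_option autoImplicit false

namespace Pool.Agent.Results.MP_d26cd8_an.AWeylSystems

open MeasureTheory Pool.Agent.H799Z.HK

/-- For every essentially distinct family of `l ≥ 2` integer polynomials: (1) every relation
`Q₀(x) + ∑ Q i (x + p i (y)) = 0` has all degrees at most `l - 1`; (2) `Z_{l-1}` is characteristic
in every system whose generalized eigenfunctions span `L²`; (3) `Z_{l-1}` is characteristic in
every Weyl system (unipotent affine map of a torus). -/
theorem result (l : ℕ) (hl : 2 ≤ l) (p : Fin l → Polynomial ℤ)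
    (hp : ∀ i, 0 < (p i).natDegree) (hdiff : ∀ i j, i ≠ j → 0 < (p i - p j).natDegree) :
    (∀ (Q₀ : Polynomial ℝ) (Q : Fin l → Polynomial ℝ),
      (∀ x y : ℝ, Q₀.eval x + ∑ i, (Q i).eval (x + Polynomial.aeval y (p i)) = 0) →
      Q₀.degree < l ∧ ∀ i, (Q i).degree < l) ∧
    (∀ (α : Type) [MeasurableSpace α] (μ : Measure α) [IsProbabilityMeasure μ]
      (T : Equiv.Perm α), Measurable T.symm → MeasurePreserving T μ μ → PhasesSpan μ T →
      TopFactorCharacteristic μ T p) ∧
    (∀ (d : ℕ) (A : Matrix (Fin d) (Fin d) ℤ) (b : Fin d → UnitAddCircle)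
      (T : Equiv.Perm (Fin d → UnitAddCircle)), IsNilpotent (A - 1) →
      (∀ x i, T x i = ∑ j, A i j • x j + b i) →
      TopFactorCharacteristic
        (Measure.pi fun _ : Fin d => (AddCircle.haarAddCircle : Measure UnitAddCircle)) T p) := by
  refine ⟨fun Q₀ Q h => ?_, fun α _ μ _ T hTs hT hsp =>
    characteristic_of_phasesSpan hTs hT hsp hl p hp hdiff,
    fun d A b T hA hT => characteristic_torus hT hA hl p hp hdiff⟩
  have hinj : Function.Injective (Int.castRingHom ℝ) := Int.cast_injective
  set p' : Fin l → Polynomial ℝ := fun i => (p i).map (Int.castRingHom ℝ) with hp'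
  have key := relation_degree (K := ℝ) (ι := Option (Fin l)) (fun o => o.elim 0 p')
    (fun o => o.elim Q₀ Q)
    (by
      have h1 : ∀ i, 0 < (p' i).natDegree := fun i => by
        rw [hp', Polynomial.natDegree_map_eq_of_injective hinj]; exact hp i
      rintro (_ | a) (_ | b) hab
      · exact absurd rfl hab
      · simpa using h1 b
      · simpa using h1 a
      · simp only [Option.elim, hp']
        rw [← Polynomial.map_sub, Polynomial.natDegree_map_eq_of_injective hinj]
        exact hdiff a b (fun e => hab (by rw [e])))
    (by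
      apply Polynomial.eq_zero_of_infinite_isRoot
      refine (Set.infinite_range_of_injective (Polynomial.C_injective (R := ℝ))).mono ?_
      rintro _ ⟨x, rfl⟩
      simp only [Set.mem_setOf_eq, Polynomial.IsRoot]
      apply Polynomial.funext
      intro y
      have h2 : ∀ (R P : Polynomial ℝ), (((R.map (Polynomial.C : ℝ →+* Polynomial ℝ)).comp
          (Polynomial.X + Polynomial.C P)).eval (Polynomial.C x)).eval y = R.eval (x + P.eval y) := by
        intro R P
        rw [Polynomial.eval_comp, Polynomial.eval_add, Polynomial.eval_X, Polynomial.eval_C,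
          Polynomial.eval_map]
        change (R.comp (Polynomial.C x + P)).eval y = _
        rw [Polynomial.eval_comp, Polynomial.eval_add, Polynomial.eval_C]
      rw [Polynomial.eval_finset_sum, Polynomial.eval_finset_sum, Polynomial.eval_zero,
        Fintype.sum_option, ← h x y]
      simp only [h2, Option.elim, Polynomial.eval_zero, add_zero, hp', Polynomial.aeval_def,
        Polynomial.eval_map]
      rfl)
  have hk : ∀ k : ℕ, l ≤ k → Fintype.card (Option (Fin l)) ≤ k + 1 := fun k hk => by simpa using hk
  exact ⟨(Polynomial.degree_lt_iff_coeff_zero _ _).2 fun k hk' => key none k (hk k hk'),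
    fun i => (Polynomial.degree_lt_iff_coeff_zero _ _).2 fun k hk' => key (some i) k (hk k hk')⟩

end Pool.Agent.Results.MP_d26cd8_an.AWeylSystems
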